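import Pool.Agent.Helper5.FV.Stmts

/-!
# Colourings with given classes at `W0`

One block is removed at a time, together with its colour `c`; the other colours are renumbered by
`fbc_s c`.
-/

set_option autoImplicit false

open Finset Pool.Agent.Helper8.UN

namespace Pool.Agent.Helper5.FV

/-- renumbering of the colours different from `c` -/
def fbc_s (c x : ℕ) : ℕ := if x < c then x else x - 1

/-- its inverse -/
def fbc_t (c x : ℕ) : ℕ := if x < c then x else x + 1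

theorem fbc_t_ne (c x : ℕ) : fbc_t c x ≠ c := by
  unfold fbc_t
  split_ifs <;> omega

theorem fbc_t_inj {c x y : ℕ} (h : fbc_t c x = fbc_t c y) : x = y := by
  unfold fbc_t at h
  split_ifs at h <;> omega

theorem fbc_s_inj {c x y : ℕ} (hx : x ≠ c) (hy : y ≠ c) (h : fbc_s c x = fbc_s c y) : x = y := by
  unfold fbc_s at h
  split_ifs at h <;> omega

theorem fbc_st (c x : ℕ) : fbc_s c (fbc_t c x) = x := by
  unfold fbc_s fbc_t
  split_ifs <;> omega

theorem fbc_ts {c x : ℕ} (hx : x ≠ c) (h0 : 1 ≤ c) : fbc_t c (fbc_s c x) = x := by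
  unfold fbc_s fbc_t
  split_ifs <;> omega

theorem fbc_s_le {c x k : ℕ} (hx : x ≠ c) (hx1 : 1 ≤ x) (hxk : x ≤ k) (hc1 : 1 ≤ c) (hck : c ≤ k) :
    1 ≤ fbc_s c x ∧ fbc_s c x ≤ k - 1 := by
  unfold fbc_s
  split_ifs <;> omega

theorem fbc_t_le {c x k : ℕ} (hx1 : 1 ≤ x) (hxk : x ≤ k - 1) (hc1 : 1 ≤ c) (hck : c ≤ k) :
    1 ≤ fbc_t c x ∧ fbc_t c x ≤ k := by
  unfold fbc_t
  split_ifs <;> omega

open scoped Classical in
/-- colourings of `X` in which the members of `Q` are full classes (`b`: all colours are used) -/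
noncomputable def fbc_N {n : ℕ} (E : Finset (Finset (Fin n))) (X : Finset (Fin n))
    (Q : Finset (Finset (Fin n))) (k : ℕ) (b : Bool) : Finset (Fin n → ℕ) :=
  (CC E X k).filter (fun f => (∀ B ∈ Q, ∀ u ∈ B, ∀ y ∈ X, f y = f u ↔ y ∈ B) ∧
    (b = true → ∀ i, 1 ≤ i → i ≤ k → ∃ v ∈ X, f v = i))

theorem fbc_mem {n : ℕ} {E : Finset (Finset (Fin n))} {X : Finset (Fin n)}
    {Q : Finset (Finset (Fin n))} {k : ℕ} {b : Bool} {f : Fin n → ℕ} :
    f ∈ fbc_N E X Q k b ↔ (∀ v ∈ X, 1 ≤ f v ∧ f v ≤ k) ∧ (∀ v, v ∉ X → f v = 0) ∧ Prp E X f ∧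
      (∀ B ∈ Q, ∀ u ∈ B, ∀ y ∈ X, f y = f u ↔ y ∈ B) ∧
      (b = true → ∀ i, 1 ≤ i → i ≤ k → ∃ v ∈ X, f v = i) := by
  classical
  unfold fbc_N CC
  simp only [mem_filter, Fintype.mem_piFinset]
  constructor
  · rintro ⟨⟨h1, h2⟩, h3, h4⟩
    refine ⟨fun v hv => ?_, fun v hv => ?_, h2, h3, h4⟩
    · have := h1 v
      rw [if_pos hv, mem_Icc] at this
      exact this
    · have := h1 v
      rw [if_neg hv, mem_singleton] at this
      exact this
  · rintro ⟨h1, h2, h3, h4, h5⟩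
    refine ⟨⟨fun v => ?_, h3⟩, h4, h5⟩
    by_cases hv : v ∈ X
    · rw [if_pos hv, mem_Icc]
      exact h1 v hv
    · rw [if_neg hv, mem_singleton]
      exact h2 v hv

/-- the removal of one block -/
theorem fbc_step {n : ℕ} (E : Finset (Finset (Fin n))) (X : Finset (Fin n))
    (Q : Finset (Finset (Fin n))) (B : Finset (Fin n)) (k : ℕ) (b : Bool) (hBne : B.Nonempty)
    (hBX : B ⊆ X) (hBal : Pool.Agent.Helper89.UB.Al E B)
    (hQX : ∀ B' ∈ Q, B' ⊆ X) (hdis : ∀ B' ∈ Q, Disjoint B' B) :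
    (fbc_N E X (insert B Q) k b).card = k * (fbc_N E (X \ B) Q (k - 1) b).card := by
  classical
  obtain ⟨b0, hb0⟩ := hBne
  have hmn : ∀ B' ∈ Q, ∀ u ∈ B', u ∈ X ∧ u ∉ B := fun B' hB' u hu =>
    ⟨hQX B' hB' hu, Finset.disjoint_left.1 (hdis B' hB') hu⟩
  have hcard : k * (fbc_N E (X \ B) Q (k - 1) b).card =
      ((Icc 1 k) ×ˢ (fbc_N E (X \ B) Q (k - 1) b)).card := by
    rw [card_product, Nat.card_Icc, Nat.add_sub_cancel]
  rw [hcard]
  refine Finset.card_bij'
    (fun f _ => (f b0, fun v => if v ∈ X \ B then fbc_s (f b0) (f v) else 0))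
    (fun q _ => fun v => if v ∈ B then q.1 else if v ∈ X then fbc_t q.1 (q.2 v) else 0)
    ?_ ?_ ?_ ?_
  · intro f hf
    obtain ⟨h1, h2, h3, h4, h5⟩ := fbc_mem.1 hf
    have hc := h1 b0 (hBX hb0)
    have hB := h4 B (mem_insert_self _ _) b0 hb0
    have hne : ∀ v ∈ X \ B, f v ≠ f b0 := by
      intro v hv he
      rw [mem_sdiff] at hv
      exact hv.2 ((hB v hv.1).1 he)
    rw [mem_product, mem_Icc]
    refine ⟨hc, fbc_mem.2 ⟨?_, ?_, ?_, ?_, ?_⟩⟩
    · intro v hv
      simp only [if_pos hv]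
      have hv' := h1 v (mem_sdiff.1 hv).1
      exact fbc_s_le (hne v hv) hv'.1 hv'.2 hc.1 hc.2
    · intro v hv
      simp only [if_neg hv]
    · intro e he heX
      obtain ⟨u, hu, v, hv, huv⟩ := h3 e he (heX.trans sdiff_subset)
      refine ⟨u, hu, v, hv, ?_⟩
      simp only [if_pos (heX hu), if_pos (heX hv)]
      exact fun h => huv (fbc_s_inj (hne u (heX hu)) (hne v (heX hv)) h)
    · intro B' hB' u hu y hy
      have hu' : u ∈ X \ B := mem_sdiff.2 (hmn B' hB' u hu)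
      simp only [if_pos hu', if_pos hy]
      rw [← h4 B' (mem_insert_of_mem hB') u hu y (mem_sdiff.1 hy).1]
      exact ⟨fun h => fbc_s_inj (hne y hy) (hne u hu') h, fun h => by rw [h]⟩
    · intro hb i hi1 hi2
      have ht := fbc_t_le hi1 hi2 hc.1 hc.2
      obtain ⟨v, hv, hv2⟩ := h5 hb (fbc_t (f b0) i) ht.1 ht.2
      have hvB : v ∉ B := by
        intro hvB
        have := (hB v hv).2 hvB
        rw [hv2] at this
        exact fbc_t_ne _ _ this
      refine ⟨v, mem_sdiff.2 ⟨hv, hvB⟩, ?_⟩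
      simp only [if_pos (mem_sdiff.2 ⟨hv, hvB⟩), hv2]
      exact fbc_st _ _
  · rintro ⟨c, h⟩ hq
    rw [mem_product, mem_Icc] at hq
    obtain ⟨hc, hh⟩ := hq
    obtain ⟨h1, h2, h3, h4, h5⟩ := fbc_mem.1 hh
    simp only at hc h1 h2 h3 h4 h5 ⊢
    refine fbc_mem.2 ⟨?_, ?_, ?_, ?_, ?_⟩
    · intro v hv
      by_cases hvB : v ∈ B
      · simp only [if_pos hvB]
        exact hc
      · simp only [if_neg hvB, if_pos hv]
        have := h1 v (mem_sdiff.2 ⟨hv, hvB⟩)
        exact fbc_t_le this.1 this.2 hc.1 hc.2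
    · intro v hv
      have hvB : v ∉ B := fun h => hv (hBX h)
      simp only [if_neg hvB, if_neg hv]
    · intro e he heX
      by_cases heB : ∃ u ∈ e, u ∈ B
      · obtain ⟨u, hu, huB⟩ := heB
        have : ∃ v ∈ e, v ∉ B := by
          by_contra hcon
          push Not at hcon
          exact hBal e he hcon
        obtain ⟨v, hv, hvB⟩ := this
        refine ⟨u, hu, v, hv, ?_⟩
        simp only [if_pos huB, if_neg hvB, if_pos (heX hv)]
        exact fun h' => fbc_t_ne _ _ h'.symm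
      · push Not at heB
        obtain ⟨u, hu, v, hv, huv⟩ := h3 e he (fun x hx => mem_sdiff.2 ⟨heX hx, heB x hx⟩)
        refine ⟨u, hu, v, hv, ?_⟩
        simp only [if_neg (heB u hu), if_neg (heB v hv), if_pos (heX hu), if_pos (heX hv)]
        exact fun h' => huv (fbc_t_inj h')
    · intro B' hB' u hu y hy
      rcases mem_insert.1 hB' with rfl | hB'
      · simp only [if_pos hu]
        by_cases hyB : y ∈ B'
        · rw [if_pos hyB]
          exact ⟨fun _ => hyB, fun _ => rfl⟩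
        · rw [if_neg hyB, if_pos hy]
          exact ⟨fun h' => absurd h' (fbc_t_ne _ _), fun h' => absurd h' hyB⟩
      · obtain ⟨huX, huB⟩ := hmn B' hB' u hu
        simp only [if_neg huB, if_pos huX]
        by_cases hyB : y ∈ B
        · simp only [if_pos hyB]
          have hyB' : y ∉ B' := fun h' => (hmn B' hB' y h').2 hyB
          simp only [hyB', iff_false]
          exact fun h' => fbc_t_ne _ _ h'.symm
        · simp only [if_neg hyB, if_pos hy]
          rw [← h4 B' hB' u hu y (mem_sdiff.2 ⟨hy, hyB⟩)]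
          exact ⟨fun h' => fbc_t_inj h', fun h' => by rw [h']⟩
    · intro hb i hi1 hi2
      by_cases hic : i = c
      · refine ⟨b0, hBX hb0, ?_⟩
        simp only [if_pos hb0]
        exact hic.symm
      · have hs := fbc_s_le hic hi1 hi2 hc.1 hc.2
        obtain ⟨v, hv, hv2⟩ := h5 hb (fbc_s c i) hs.1 hs.2
        obtain ⟨hvX, hvB⟩ := mem_sdiff.1 hv
        refine ⟨v, hvX, ?_⟩
        simp only [if_neg hvB, if_pos hvX, hv2]
        exact fbc_ts hic hc.1
  · intro f hf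
    obtain ⟨h1, h2, h3, h4, h5⟩ := fbc_mem.1 hf
    have hc := h1 b0 (hBX hb0)
    have hB := h4 B (mem_insert_self _ _) b0 hb0
    funext v
    by_cases hvB : v ∈ B
    · simp only [if_pos hvB]
      exact ((hB v (hBX hvB)).2 hvB).symm
    · simp only [if_neg hvB]
      by_cases hvX : v ∈ X
      · simp only [if_pos hvX, if_pos (mem_sdiff.2 ⟨hvX, hvB⟩)]
        exact fbc_ts (fun he => hvB ((hB v hvX).1 he)) hc.1
      · simp only [if_neg hvX]
        exact (h2 v hvX).symm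
  · rintro ⟨c, h⟩ hq
    rw [mem_product, mem_Icc] at hq
    obtain ⟨hc, hh⟩ := hq
    obtain ⟨h1, h2, h3, h4, h5⟩ := fbc_mem.1 hh
    simp only [if_pos hb0]
    refine Prod.ext rfl ?_
    funext v
    by_cases hv : v ∈ X \ B
    · obtain ⟨hvX, hvB⟩ := mem_sdiff.1 hv
      simp only [if_pos hv, if_neg hvB, if_pos hvX]
      exact fbc_st _ _
    · simp only [if_neg hv]
      exact (h2 v hv).symm

theorem fbc_all {n : ℕ} (E : Finset (Finset (Fin n))) (b : Bool) (Q : Finset (Finset (Fin n))) :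
    ∀ (X : Finset (Fin n)) (k : ℕ), (∀ B ∈ Q, B.Nonempty ∧ B ⊆ X ∧
      Pool.Agent.Helper89.UB.Al E B) → (∀ B ∈ Q, ∀ B' ∈ Q, B ≠ B' → Disjoint B B') →
    (fbc_N E X Q k b).card =
      k.descFactorial Q.card * (fbc_N E (X \ un Q) ∅ (k - Q.card) b).card := by
  classical
  induction Q using Finset.induction_on with
  | empty =>
    intro X k _ _
    simp [un]
  | insert B Q hB ih =>
    intro X k h1 h2
    have hB1 := h1 B (mem_insert_self _ _)
    have hdis : ∀ B' ∈ Q, Disjoint B' B := fun B' hB' =>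
      h2 B' (mem_insert_of_mem hB') B (mem_insert_self _ _) (fun h => hB (h ▸ hB'))
    rw [fbc_step E X Q B k b hB1.1 hB1.2.1 hB1.2.2
      (fun B' hB' => (h1 B' (mem_insert_of_mem hB')).2.1) hdis]
    rw [ih (X \ B) (k - 1) (fun B' hB' => ⟨(h1 B' (mem_insert_of_mem hB')).1,
      fun x hx => mem_sdiff.2 ⟨(h1 B' (mem_insert_of_mem hB')).2.1 hx,
        Finset.disjoint_left.1 (hdis B' hB') hx⟩, (h1 B' (mem_insert_of_mem hB')).2.2⟩)
      (fun B1 hB1' B2 hB2' => h2 B1 (mem_insert_of_mem hB1') B2 (mem_insert_of_mem hB2'))]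
    rw [card_insert_of_notMem hB]
    have e1 : (X \ B) \ un Q = X \ un (insert B Q) := by
      unfold un
      rw [biUnion_insert, id, sdiff_sdiff_left]
      rfl
    have e2 : k - 1 - Q.card = k - (Q.card + 1) := by omega
    rw [e1, e2, ← mul_assoc]
    congr 1
    cases k with
    | zero => simp
    | succ k => rw [Nat.succ_descFactorial_succ, Nat.add_sub_cancel]

theorem fbc_set {n : ℕ} {E : Finset (Finset (Fin n))} {W0 : Finset (Fin n)}
    {Q : Finset (Finset (Fin n))} (hQ : Q ∈ QQ E W0) (f : Fin n → ℕ) :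
    cls W0 f = Q ↔ ∀ B ∈ Q, ∀ u ∈ B, ∀ y ∈ (univ : Finset (Fin n)), f y = f u ↔ y ∈ B := by
  classical
  unfold QQ at hQ
  obtain ⟨-, h1, h2, h3⟩ := mem_filter.1 hQ
  constructor
  · rintro rfl B hB u hu y -
    unfold cls at hB
    obtain ⟨u0, hu0, rfl⟩ := mem_image.1 hB
    rw [mem_filter] at hu ⊢
    rw [hu.2]
    simp
  · intro h
    ext B
    unfold cls
    rw [mem_image]
    constructor
    · rintro ⟨u, hu, rfl⟩
      have hu' := h3 hu
      unfold un at hu'
      obtain ⟨B, hB, huB⟩ := mem_biUnion.1 hu'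
      have : univ.filter (fun y => f y = f u) = B := by
        ext y
        rw [mem_filter]
        rw [h B hB u huB y (mem_univ _)]
        simp
      rw [this]
      exact hB
    · intro hB
      obtain ⟨u, hu⟩ := (h1 B hB).1
      rw [mem_inter] at hu
      refine ⟨u, hu.2, ?_⟩
      ext y
      rw [mem_filter]
      rw [h B hB u hu.1 y (mem_univ _)]
      simp

theorem fbc_CC {n : ℕ} (E : Finset (Finset (Fin n))) (X : Finset (Fin n)) (k : ℕ) :
    fbc_N E X ∅ k false = CC E X k := by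
  classical
  unfold fbc_N
  refine filter_true_of_mem fun f _ => ⟨?_, ?_⟩
  · intro B hB
    simp at hB
  · intro h
    simp at h

theorem fbc_SS {n : ℕ} (E : Finset (Finset (Fin n))) (X : Finset (Fin n)) (k : ℕ) :
    fbc_N E X ∅ k true = SS E X k := by
  classical
  unfold fbc_N SS
  ext f
  simp only [mem_filter]
  constructor
  · rintro ⟨h0, -, h⟩
    refine ⟨h0, fun i hi => ?_⟩
    rw [mem_Icc] at hi
    exact h trivial i hi.1 hi.2
  · rintro ⟨h0, h⟩
    refine ⟨h0, fun B hB => ?_, fun _ i h1 h2 => h i (mem_Icc.2 ⟨h1, h2⟩)⟩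
    simp at hB

theorem fbc_QQ {n : ℕ} {E : Finset (Finset (Fin n))} {W0 : Finset (Fin n)}
    {Q : Finset (Finset (Fin n))} (hQ : Q ∈ QQ E W0) :
    (∀ B ∈ Q, B.Nonempty ∧ B ⊆ univ ∧ Pool.Agent.Helper89.UB.Al E B) ∧
      (∀ B ∈ Q, ∀ B' ∈ Q, B ≠ B' → Disjoint B B') := by
  classical
  unfold QQ at hQ
  obtain ⟨-, h1, h2, -⟩ := mem_filter.1 hQ
  exact ⟨fun B hB => ⟨(h1 B hB).1.mono inter_subset_left, subset_univ _, (h1 B hB).2⟩, h2⟩

theorem st_FBC : ST_FBC := by
  intro n k E W0 Q _ hQ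
  obtain ⟨h1, h2⟩ := fbc_QQ hQ
  have key := fbc_all E false Q univ k h1 h2
  rw [fbc_CC] at key
  unfold PP
  rw [← key]
  congr 1
  ext f
  rw [mem_filter, fbc_set hQ]
  unfold fbc_N
  rw [mem_filter]
  simp

theorem fbc_FBS : ST_FBS := by
  intro n k E W0 Q _ hQ
  obtain ⟨h1, h2⟩ := fbc_QQ hQ
  have key := fbc_all E true Q univ k h1 h2
  rw [fbc_SS] at key
  unfold AA
  rw [← key]
  congr 1
  ext f
  unfold fbc_N SS
  simp only [mem_filter, fbc_set hQ]
  constructor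
  · rintro ⟨⟨a1, a2⟩, a3⟩
    exact ⟨a1, a3, fun _ i i1 i2 => a2 i (mem_Icc.2 ⟨i1, i2⟩)⟩
  · rintro ⟨a1, a3, a2⟩
    refine ⟨⟨a1, fun i hi => ?_⟩, a3⟩
    rw [mem_Icc] at hi
    exact a2 trivial i hi.1 hi.2

end Pool.Agent.Helper5.FV
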