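import Pool.Agent.Helper43.FV.SpecG

/-!
# Module GK: the field of rational functions of a variety
-/

namespace Pool.Agent.Helper43.FV

open Pool.Agent.Helper43.RS
open scoped ComplexConjugate TensorProduct
open MvPolynomial

variable {X : Type}

/-- homogenization along a chart change -/
theorem GK_subst {n m : ℕ} {Y : Type} (P : Y → Prop) (a : Y → (Fin n → ℂ)) (b : Y → (Fin m → ℂ))
    (q : MvPolynomial (Fin n) ℂ) (p : Fin m → MvPolynomial (Fin n) ℂ)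
    (hp : ∀ y, P y → ∀ l, b y l * eval (a y) q = eval (a y) (p l))
    (s : MvPolynomial (Fin m) ℂ) :
    ∃ (N : ℕ) (s' : MvPolynomial (Fin n) ℂ), ∀ y, P y →
      eval (b y) s * (eval (a y) q) ^ N = eval (a y) s' := by
  induction s using MvPolynomial.induction_on with
  | C c => exact ⟨0, C c, fun y _ => by simp⟩
  | add s t hs ht =>
    obtain ⟨N, s', hs'⟩ := hs
    obtain ⟨M, t', ht'⟩ := ht
    refine ⟨N + M, s' * q ^ M + t' * q ^ N, fun y hy => ?_⟩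
    simp only [map_add, map_mul, map_pow]
    rw [← hs' y hy, ← ht' y hy]
    ring
  | mul_X s l hs =>
    obtain ⟨N, s', hs'⟩ := hs
    refine ⟨N + 1, s' * p l, fun y hy => ?_⟩
    simp only [map_mul, eval_X]
    rw [← hs' y hy, ← hp y hy l]
    ring

/-- the field attached to one chart -/
theorem GK_base (𝒜 : Atlas X) (h : IsNormalVariety 𝒜) (i : Fin 𝒜.k) :
    ∃ (K : Type) (_ : Field K) (_ : Algebra ℂ K) (ι : MvPolynomial (Fin 𝒜.n) ℂ →ₐ[ℂ] K),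
      (∀ p, ι p = 0 ↔ ∀ x ∈ 𝒜.U i, eval (𝒜.φ i x) p = 0) ∧
      ∀ f : K, ∃ a d, ι d ≠ 0 ∧ f * ι d = ι a := by
  have hdom : IsDomain (polyFun (𝒜.φ i '' 𝒜.U i)) := h.domain i
  set S := 𝒜.φ i '' 𝒜.U i with hS
  set π : MvPolynomial (Fin 𝒜.n) ℂ →ₐ[ℂ] polyFun S :=
    (AlgHom.pi (fun x : S => (aeval (x : Fin 𝒜.n → ℂ) : MvPolynomial (Fin 𝒜.n) ℂ →ₐ[ℂ] ℂ))).rangeRestrict
    with hπ
  have hsurj : Function.Surjective π := AlgHom.rangeRestrict_surjective _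
  have hval : ∀ p (x : S), (π p : S → ℂ) x = eval (x : Fin 𝒜.n → ℂ) p := by
    intro p x
    show (aeval (x : Fin 𝒜.n → ℂ) : MvPolynomial (Fin 𝒜.n) ℂ →ₐ[ℂ] ℂ) p = _
    rw [aeval_eq_eval]
  have hz : ∀ p, π p = 0 ↔ ∀ x ∈ 𝒜.U i, eval (𝒜.φ i x) p = 0 := by
    intro p
    constructor
    · intro hp x hx
      have := hval p ⟨𝒜.φ i x, ⟨x, hx, rfl⟩⟩
      rw [hp] at this
      exact this.symm
    · intro hp
      apply Subtype.ext
      funext x
      rw [hval]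
      obtain ⟨z, ⟨x, hx, rfl⟩⟩ := x
      exact hp x hx
  refine ⟨FractionRing (polyFun S), inferInstance, inferInstance,
    (Algebra.ofId (polyFun S) (FractionRing (polyFun S))).restrictScalars ℂ |>.comp π, ?_, ?_⟩
  · intro p
    rw [← hz p]
    constructor
    · intro h0
      exact (IsFractionRing.injective (polyFun S) (FractionRing (polyFun S))) (by
        rw [map_zero]; exact h0)
    · intro h0
      show algebraMap (polyFun S) (FractionRing (polyFun S)) (π p) = 0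
      rw [h0, map_zero]
  · intro f
    obtain ⟨a, d, hd, rfl⟩ := IsFractionRing.div_surjective (A := polyFun S) f
    obtain ⟨a, rfl⟩ := hsurj a
    obtain ⟨d, rfl⟩ := hsurj d
    have hd0 : algebraMap (polyFun S) (FractionRing (polyFun S)) (π d) ≠ 0 :=
      IsFractionRing.to_map_ne_zero_of_mem_nonZeroDivisors hd
    refine ⟨a, d, hd0, ?_⟩
    show algebraMap (polyFun S) (FractionRing (polyFun S)) (π a) /
      algebraMap (polyFun S) (FractionRing (polyFun S)) (π d) *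
      algebraMap (polyFun S) (FractionRing (polyFun S)) (π d) = _
    rw [div_mul_cancel₀ _ hd0]
    rfl

/-- the rational function `f` (in the field of the chart `i`) has the value `c` at `y` -/
def GK_Val {𝒜 : Atlas X} (i : Fin 𝒜.k) {K : Type} [Field K] [Algebra ℂ K]
    (ι : MvPolynomial (Fin 𝒜.n) ℂ →ₐ[ℂ] K) (f : K) (y : X) (c : ℂ) : Prop :=
  ∃ a b, eval (𝒜.φ i y) b ≠ 0 ∧ f * ι b = ι a ∧ c * eval (𝒜.φ i y) b = eval (𝒜.φ i y) a

section Val

variable {𝒜 : Atlas X} {i : Fin 𝒜.k} {K : Type} [Field K] [Algebra ℂ K]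
    {ι : MvPolynomial (Fin 𝒜.n) ℂ →ₐ[ℂ] K}

theorem GK_val_uniq (hι : ∀ p, ι p = 0 ↔ ∀ x ∈ 𝒜.U i, eval (𝒜.φ i x) p = 0) {f : K} {y : X}
    (hy : y ∈ 𝒜.U i) {c c' : ℂ} (h : GK_Val i ι f y c) (h' : GK_Val i ι f y c') : c = c' := by
  obtain ⟨a, b, hb, h1, h2⟩ := h
  obtain ⟨a', b', hb', h1', h2'⟩ := h'
  have h3 : ι (a * b' - a' * b) = 0 := by
    rw [map_sub, map_mul, map_mul, ← h1, ← h1']
    ring
  have h4 := (hι _).1 h3 y hy
  rw [map_sub, map_mul, map_mul, ← h2, ← h2'] at h4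
  have h5 : (c - c') * (eval (𝒜.φ i y) b * eval (𝒜.φ i y) b') = 0 := by
    linear_combination h4
  have h6 := (mul_eq_zero.1 h5).resolve_right (mul_ne_zero hb hb')
  exact sub_eq_zero.1 h6

theorem GK_val_add {f g : K} {y : X} {c d : ℂ} (h : GK_Val i ι f y c) (h' : GK_Val i ι g y d) :
    GK_Val i ι (f + g) y (c + d) := by
  obtain ⟨a, b, hb, h1, h2⟩ := h
  obtain ⟨a', b', hb', h1', h2'⟩ := h'
  refine ⟨a * b' + a' * b, b * b', ?_, ?_, ?_⟩
  · rw [map_mul]; exact mul_ne_zero hb hb'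
  · simp only [map_add, map_mul]
    rw [← h1, ← h1']; ring
  · simp only [map_add, map_mul]
    rw [← h2, ← h2']; ring

theorem GK_val_mul {f g : K} {y : X} {c d : ℂ} (h : GK_Val i ι f y c) (h' : GK_Val i ι g y d) :
    GK_Val i ι (f * g) y (c * d) := by
  obtain ⟨a, b, hb, h1, h2⟩ := h
  obtain ⟨a', b', hb', h1', h2'⟩ := h'
  refine ⟨a * a', b * b', ?_, ?_, ?_⟩
  · rw [map_mul]; exact mul_ne_zero hb hb'
  · simp only [map_mul]
    rw [← h1, ← h1']; ring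
  · simp only [map_mul]
    rw [← h2, ← h2']; ring

theorem GK_val_const (c : ℂ) (y : X) : GK_Val i ι (algebraMap ℂ K c) y c := by
  refine ⟨C c, 1, by simp, ?_, by simp⟩
  rw [map_one, mul_one]
  have := ι.commutes c
  rw [← this]
  rfl

theorem GK_val_neg {f : K} {y : X} {c : ℂ} (h : GK_Val i ι f y c) : GK_Val i ι (-f) y (-c) := by
  obtain ⟨a, b, hb, h1, h2⟩ := h
  refine ⟨-a, b, hb, ?_, ?_⟩
  · rw [map_neg, ← h1]; ring
  · rw [map_neg, ← h2]; ring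

theorem GK_val_sub {f g : K} {y : X} {c d : ℂ} (h : GK_Val i ι f y c) (h' : GK_Val i ι g y d) :
    GK_Val i ι (f - g) y (c - d) := by
  rw [sub_eq_add_neg, sub_eq_add_neg]
  exact GK_val_add h (GK_val_neg h')

theorem GK_val_self (p : MvPolynomial (Fin 𝒜.n) ℂ) (y : X) :
    GK_Val i ι (ι p) y (eval (𝒜.φ i y) p) := ⟨p, 1, by simp, by simp, by simp⟩

/-- a rational function with value zero on a nonempty basic open subset is zero -/
theorem GK_zero_of_val (hι : ∀ p, ι p = 0 ↔ ∀ x ∈ 𝒜.U i, eval (𝒜.φ i x) p = 0)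
    (hfr : ∀ f : K, ∃ a d, ι d ≠ 0 ∧ f * ι d = ι a) {f : K} {b : MvPolynomial (Fin 𝒜.n) ℂ}
    (hb : ι b ≠ 0) (hf : ∀ y ∈ 𝒜.U i, eval (𝒜.φ i y) b ≠ 0 → GK_Val i ι f y 0) : f = 0 := by
  obtain ⟨a, d, hd, h1⟩ := hfr f
  have h2 : ι (a * b) = 0 := by
    rw [hι]
    intro y hy
    rw [map_mul]
    by_cases hby : eval (𝒜.φ i y) b = 0
    · rw [hby, mul_zero]
    · obtain ⟨a', d', hd', h1', h2'⟩ := hf y hy hby
      have h3 : ι (a * d' - a' * d) = 0 := by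
        rw [map_sub, map_mul, map_mul, ← h1, ← h1']
        ring
      have h4 := (hι _).1 h3 y hy
      rw [map_sub, map_mul, map_mul, ← h2', zero_mul, zero_mul, sub_zero] at h4
      rw [(mul_eq_zero.1 h4).resolve_right hd', zero_mul]
  rw [map_mul] at h2
  have h3 := (mul_eq_zero.1 h2).resolve_right hb
  rw [h3] at h1
  exact (mul_eq_zero.1 h1).resolve_right hd

end Val

/-- the comparison of a chart `j` with the base chart `i` -/
theorem GK_chart (𝒜 : Atlas X) (h : IsNormalVariety 𝒜) (i : Fin 𝒜.k) {K : Type} [Field K]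
    [Algebra ℂ K] {ι : MvPolynomial (Fin 𝒜.n) ℂ →ₐ[ℂ] K}
    (hι : ∀ p, ι p = 0 ↔ ∀ x ∈ 𝒜.U i, eval (𝒜.φ i x) p = 0)
    (hfr : ∀ f : K, ∃ a d, ι d ≠ 0 ∧ f * ι d = ι a) (j : Fin 𝒜.k) :
    ∃ (cr : MvPolynomial (Fin 𝒜.n) ℂ →ₐ[ℂ] K) (q : MvPolynomial (Fin 𝒜.n) ℂ), ι q ≠ 0 ∧
      (∀ y ∈ 𝒜.U i, eval (𝒜.φ i y) q ≠ 0 → y ∈ 𝒜.U j ∧
        ∀ p, GK_Val i ι (cr p) y (eval (𝒜.φ j y) p)) ∧
      ∀ p, cr p = 0 ↔ ∀ x ∈ 𝒜.U j, eval (𝒜.φ j x) p = 0 := by
  obtain ⟨x₀, hx₀i, hx₀j⟩ := h.irreducible i j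
  obtain ⟨q, p, hq, hqp⟩ := h.trans i j x₀ hx₀i hx₀j
  have hιq : ι q ≠ 0 := by
    intro h0
    exact hq ((hι q).1 h0 x₀ hx₀i)
  set cr : MvPolynomial (Fin 𝒜.n) ℂ →ₐ[ℂ] K := aeval (fun l => ι (p l) / ι q) with hcr
  have hval : ∀ y ∈ 𝒜.U i, eval (𝒜.φ i y) q ≠ 0 →
      ∀ s, GK_Val i ι (cr s) y (eval (𝒜.φ j y) s) := by
    intro y hy hqy s
    induction s using MvPolynomial.induction_on with
    | C c =>
      have h1 := GK_val_const (i := i) (ι := ι) c y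
      have h2 : cr (C c) = algebraMap ℂ K c := by rw [hcr, aeval_C]
      rw [h2, eval_C]
      exact h1
    | add s t hs ht =>
      rw [map_add, map_add]
      exact GK_val_add hs ht
    | mul_X s l hs =>
      rw [map_mul, map_mul]
      refine GK_val_mul hs ⟨p l, q, hqy, ?_, ?_⟩
      · rw [hcr, aeval_X, div_mul_cancel₀ _ hιq]
      · rw [eval_X]
        exact (hqp y hy hqy).2 l
  refine ⟨cr, q, hιq, fun y hy hqy => ⟨(hqp y hy hqy).1, hval y hy hqy⟩, fun s => ?_⟩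
  constructor
  · intro hs
    -- s vanishes on the basic open set
    have hs0 : ∀ y ∈ 𝒜.U i, eval (𝒜.φ i y) q ≠ 0 → eval (𝒜.φ j y) s = 0 := by
      intro y hy hqy
      have h1 := hval y hy hqy s
      rw [hs] at h1
      have h2 := GK_val_const (i := i) (ι := ι) 0 y
      rw [map_zero] at h2
      exact GK_val_uniq hι hy h1 h2
    obtain ⟨q', p', hq', hqp'⟩ := h.trans j i x₀ hx₀j hx₀i
    obtain ⟨N, Q, hQ⟩ := GK_subst (fun y => y ∈ 𝒜.U j ∧ eval (𝒜.φ j y) q' ≠ 0) (𝒜.φ j) (𝒜.φ i)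
      q' p' (fun y hy l => (hqp' y hy.1 hy.2).2 l) q
    obtain ⟨K', _, _, ι', hι', _⟩ := GK_base 𝒜 h j
    have h1 : ι' (s * (Q * q')) = 0 := by
      rw [hι']
      intro y hy
      simp only [map_mul]
      by_cases h2 : eval (𝒜.φ j y) q' = 0
      · rw [h2, mul_zero, mul_zero]
      · have h3 := hQ y ⟨hy, h2⟩
        by_cases h4 : eval (𝒜.φ i y) q = 0
        · rw [← h3, h4, zero_mul, zero_mul, mul_zero]
        · rw [hs0 y (hqp' y hy h2).1 h4, zero_mul]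
    have h2 : ι' (Q * q') ≠ 0 := by
      intro h0
      have h3 := (hι' _).1 h0 x₀ hx₀j
      rw [map_mul, ← hQ x₀ ⟨hx₀j, hq'⟩] at h3
      exact mul_ne_zero (mul_ne_zero hq (pow_ne_zero _ hq')) hq' h3
    rw [map_mul] at h1
    exact (hι' s).1 ((mul_eq_zero.1 h1).resolve_right h2)
  · intro hs
    refine GK_zero_of_val hι hfr hιq fun y hy hqy => ?_
    have h1 := hval y hy hqy s
    rwa [hs y (hqp y hy hqy).1] at h1

/-- **Module GK** -/
theorem st_GK : ST_GK := by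
  intro X 𝒜 h
  set i₀ : Fin 𝒜.k := ⟨0, h.charts⟩ with hi₀
  obtain ⟨K, _, _, ι, hι, hfr⟩ := GK_base 𝒜 h i₀
  choose cr q hq hval hzero using fun j => GK_chart 𝒜 h i₀ hι hfr j
  refine ⟨K, inferInstance, inferInstance, cr, ?_⟩
  have hglue : ∀ i j p s p' s', cr i p * cr j s' = cr j p' * cr i s ↔
      ∀ x ∈ 𝒜.U i ∩ 𝒜.U j, eval (𝒜.φ i x) p * eval (𝒜.φ j x) s' =
      eval (𝒜.φ j x) p' * eval (𝒜.φ i x) s := by
    intro i j p s p' s'
    have hqq : ι (q i * q j) ≠ 0 := by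
      rw [map_mul]; exact mul_ne_zero (hq i) (hq j)
    have hv : ∀ y ∈ 𝒜.U i₀, eval (𝒜.φ i₀ y) (q i * q j) ≠ 0 → y ∈ 𝒜.U i ∩ 𝒜.U j ∧
        GK_Val i₀ ι (cr i p * cr j s' - cr j p' * cr i s) y
          (eval (𝒜.φ i y) p * eval (𝒜.φ j y) s' - eval (𝒜.φ j y) p' * eval (𝒜.φ i y) s) := by
      intro y hy hqy
      rw [map_mul] at hqy
      have h1 := hval i y hy (left_ne_zero_of_mul hqy)
      have h2 := hval j y hy (right_ne_zero_of_mul hqy)
      exact ⟨⟨h1.1, h2.1⟩, GK_val_sub (GK_val_mul (h1.2 p) (h2.2 s'))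
        (GK_val_mul (h2.2 p') (h1.2 s))⟩
    constructor
    · intro heq x hx
      obtain ⟨Q, P, hQ, hQP⟩ := h.trans i j x hx.1 hx.2
      obtain ⟨N, S', hS'⟩ := GK_subst (fun y => y ∈ 𝒜.U i ∧ eval (𝒜.φ i y) Q ≠ 0) (𝒜.φ i) (𝒜.φ j)
        Q P (fun y hy l => (hQP y hy.1 hy.2).2 l) s'
      obtain ⟨M, P', hP'⟩ := GK_subst (fun y => y ∈ 𝒜.U i ∧ eval (𝒜.φ i y) Q ≠ 0) (𝒜.φ i) (𝒜.φ j)
        Q P (fun y hy l => (hQP y hy.1 hy.2).2 l) p'
      -- the polynomial E on the chart i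
      have hE : cr i ((p * S' * Q ^ M - P' * s * Q ^ N) * Q) = 0 := by
        refine GK_zero_of_val hι hfr hqq fun y hy hqy => ?_
        have h1 := hv y hy hqy
        rw [map_mul] at hqy
        have h2 := (hval i y hy (left_ne_zero_of_mul hqy)).2 ((p * S' * Q ^ M - P' * s * Q ^ N) * Q)
        have h3 := h1.2
        rw [heq, sub_self] at h3
        have h4 := GK_val_const (i := i₀) (ι := ι) 0 y
        rw [map_zero] at h4
        have h5 := GK_val_uniq hι hy h3 h4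
        have h6 : eval (𝒜.φ i y) ((p * S' * Q ^ M - P' * s * Q ^ N) * Q) = 0 := by
          simp only [map_mul, map_sub, map_pow]
          by_cases hQy : eval (𝒜.φ i y) Q = 0
          · rw [hQy, mul_zero]
          · rw [← hS' y ⟨h1.1.1, hQy⟩, ← hP' y ⟨h1.1.1, hQy⟩]
            linear_combination (eval (𝒜.φ i y) Q) ^ (N + M + 1) * h5
        rwa [h6] at h2
      have h7 := (hzero i _).1 hE x hx.1
      simp only [map_mul, map_sub, map_pow] at h7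
      rw [← hS' x ⟨hx.1, hQ⟩, ← hP' x ⟨hx.1, hQ⟩] at h7
      have h8 : (eval (𝒜.φ i x) p * eval (𝒜.φ j x) s' - eval (𝒜.φ j x) p' * eval (𝒜.φ i x) s) *
          (eval (𝒜.φ i x) Q) ^ (N + M + 1) = 0 := by
        linear_combination h7
      exact sub_eq_zero.1 ((mul_eq_zero.1 h8).resolve_right (pow_ne_zero _ hQ))
    · intro hx
      refine sub_eq_zero.1 (GK_zero_of_val hι hfr hqq fun y hy hqy => ?_)
      have h1 := hv y hy hqy
      have h2 := h1.2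
      rwa [hx y h1.1, sub_self] at h2
  refine ⟨hzero, hglue, ?_⟩
  -- fractions
  have hbase : ∀ a, cr i₀ a = ι a := by
    intro a
    refine sub_eq_zero.1 (GK_zero_of_val hι hfr (hq i₀) fun y hy hqy => ?_)
    have h1 := GK_val_sub ((hval i₀ y hy hqy).2 a) (GK_val_self (i := i₀) (ι := ι) a y)
    rwa [sub_self] at h1
  intro i f
  obtain ⟨a, d, hd, hfd⟩ := hfr f
  obtain ⟨x₀, hx₀, hx₀i⟩ := h.irreducible i₀ i
  obtain ⟨Q, P, hQ, hQP⟩ := h.trans i i₀ x₀ hx₀i hx₀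
  have hstep : ∀ s, ∃ (N : ℕ) (s' : MvPolynomial (Fin 𝒜.n) ℂ), ι s * cr i (Q ^ N) = cr i s' := by
    intro s
    obtain ⟨N, S', hS'⟩ := GK_subst (fun y => y ∈ 𝒜.U i ∧ eval (𝒜.φ i y) Q ≠ 0) (𝒜.φ i) (𝒜.φ i₀)
      Q P (fun y hy l => (hQP y hy.1 hy.2).2 l) s
    refine ⟨N + 1, S' * Q, ?_⟩
    have h1 := (hglue i₀ i s 1 (S' * Q) (Q ^ (N + 1))).2 (fun x hx => ?_)
    · rw [hbase, map_one, mul_one] at h1
      exact h1
    · simp only [map_mul, map_pow, map_one, mul_one]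
      by_cases hQx : eval (𝒜.φ i x) Q = 0
      · rw [hQx]; simp
      · rw [← hS' x ⟨hx.2, hQx⟩]; ring
  have hQ0 : cr i Q ≠ 0 := by
    intro h0
    exact hQ ((hzero i Q).1 h0 x₀ hx₀i)
  obtain ⟨N, a', ha'⟩ := hstep a
  obtain ⟨M, d', hd'⟩ := hstep d
  refine ⟨a' * Q ^ M, d' * Q ^ N, ?_, ?_⟩
  · rw [map_mul, ← hd', map_pow, map_pow]
    exact mul_ne_zero (mul_ne_zero hd (pow_ne_zero _ hQ0)) (pow_ne_zero _ hQ0)
  · rw [map_mul, map_mul, ← hd', ← ha', ← hfd]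
    ring

end Pool.Agent.Helper43.FV
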