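import Pool.Agent.Helper43.FV.Spec

/-!
# Module PLU: representation and map from the minors of a stable subspace
-/

namespace Pool.Agent.Helper43.FV

open Pool.Agent.Helper43.RS
open scoped ComplexConjugate TensorProduct
open Matrix

/-- the matrix of the representation on index tuples -/
def PLU_mat {d n : ℕ} (B : Matrix (Fin n) (Fin n) ℂ) :
    Matrix (Fin d → Fin n) (Fin d → Fin n) ℂ :=
  fun J I => ∏ b, B (I b) (J b)

theorem PLU_mat_one {d n : ℕ} : PLU_mat (d := d) (1 : Matrix (Fin n) (Fin n) ℂ) = 1 := by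
  ext J I
  unfold PLU_mat
  by_cases h : J = I
  · subst h; simp
  · rw [Matrix.one_apply_ne h]
    obtain ⟨b, hb⟩ := Function.ne_iff.1 h
    exact Finset.prod_eq_zero (Finset.mem_univ b) (Matrix.one_apply_ne (Ne.symm hb))

theorem PLU_mat_mul {d n : ℕ} (A B : Matrix (Fin n) (Fin n) ℂ) :
    PLU_mat (d := d) (A * B) = PLU_mat B * PLU_mat A := by
  ext J I
  simp only [PLU_mat, Matrix.mul_apply]
  rw [Finset.prod_univ_sum]
  simp only [Fintype.piFinset_univ]
  refine Finset.sum_congr rfl fun L _ => ?_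
  rw [← Finset.prod_mul_distrib]
  exact Finset.prod_congr rfl fun b _ => mul_comm _ _

/-- the representation -/
noncomputable def PLU_rep {G : Type} [Group G] (d : ℕ) {n : ℕ} (β : G →* GL (Fin n) ℂ) :
    Representation ℂ G ((Fin d → Fin n) → ℂ) where
  toFun g := Matrix.toLin' (PLU_mat ((β g⁻¹ : GL (Fin n) ℂ) : Matrix (Fin n) (Fin n) ℂ))
  map_one' := by
    rw [inv_one, map_one, Units.val_one, PLU_mat_one, Matrix.toLin'_one]
    rfl
  map_mul' g h := by
    rw [_root_.mul_inv_rev, map_mul, Units.val_mul, PLU_mat_mul, Matrix.toLin'_mul]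
    rfl

theorem PLU_isRat {G : Type} [Group G] {H : Subalgebra ℂ (G → ℂ)} (hH : HopfFun H) (d : ℕ) {n : ℕ}
    (β : G →* GL (Fin n) ℂ)
    (hβ : ∀ i j, (fun g => (β g : Matrix (Fin n) (Fin n) ℂ) i j) ∈ H) :
    IsRat H (PLU_rep d β) := by
  intro v
  refine ⟨⊤, trivial, inferInstance, fun _ _ _ => trivial, fun w _ φ => ?_⟩
  have h1 : (fun g => φ (PLU_rep d β g w)) = ∑ J : Fin d → Fin n, ∑ I : Fin d → Fin n,
      (φ (Pi.single J 1) * w I) • ∏ b, fun g : G =>
        ((β g⁻¹ : GL (Fin n) ℂ) : Matrix (Fin n) (Fin n) ℂ) (I b) (J b) := by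
    funext g
    have h2 : PLU_rep d β g w = ∑ J, (PLU_rep d β g w) J • Pi.single J (1 : ℂ) := by
      exact (pi_eq_sum_univ' _)
    rw [h2, map_sum]
    simp only [Finset.sum_apply, Pi.smul_apply, Finset.prod_apply, smul_eq_mul, map_smul]
    refine Finset.sum_congr rfl fun J _ => ?_
    have h3 : (PLU_rep d β g w) J = ∑ I, (∏ b,
        ((β g⁻¹ : GL (Fin n) ℂ) : Matrix (Fin n) (Fin n) ℂ) (I b) (J b)) * w I := rfl
    rw [h3, Finset.sum_mul]
    exact Finset.sum_congr rfl fun I _ => by ring
  rw [h1]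
  refine H.sum_mem fun J _ => H.sum_mem fun I _ => H.smul_mem (H.prod_mem fun b _ => ?_) _
  exact hH.inv _ (hβ (I b) (J b))

section Cols

variable {K : Type} [Field K]

/-- a nonzero minor -/
theorem PLU_minor {d n : ℕ} (w : Fin d → Fin n → K) (hw : LinearIndependent K w) :
    ∃ I : Fin d → Fin n, (Matrix.of fun a b => w a (I b)).det ≠ 0 := by
  obtain ⟨κ, a, hinj, hspan, hli⟩ := exists_linearIndependent' K (fun l : Fin n => fun a => w a l)
  have htop : Submodule.span K (Set.range fun l : Fin n => fun a => w a l) = ⊤ := by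
    by_contra hne
    obtain ⟨f, hf0, hf⟩ := Submodule.exists_le_ker_of_lt_top _ (lt_top_iff_ne_top.2 hne)
    apply hf0
    have h1 : ∀ l, ∑ a, f (Pi.single a 1) * w a l = 0 := by
      intro l
      have h2 : f (fun a => w a l) = 0 := hf (Submodule.subset_span ⟨l, rfl⟩)
      rw [pi_eq_sum_univ' (fun a => w a l), map_sum] at h2
      simp only [map_smul, smul_eq_mul] at h2
      rw [← h2]
      exact Finset.sum_congr rfl fun a _ => mul_comm _ _
    have h3 : ∑ a, f (Pi.single a 1) • w a = 0 := by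
      funext l
      simpa using h1 l
    have h4 := Fintype.linearIndependent_iff.1 hw _ h3
    refine LinearMap.pi_ext' fun a => ?_
    ext
    simpa using h4 a
  rw [htop] at hspan
  have hfin : Finite κ := Finite.of_injective a hinj
  have := Fintype.ofFinite κ
  have hcard : Fintype.card κ = d := by
    have h1 := finrank_span_eq_card hli
    rw [hspan, finrank_top, Module.finrank_fin_fun] at h1
    exact h1.symm
  have e : κ ≃ Fin d := Fintype.equivFinOfCardEq hcard
  refine ⟨a ∘ e.symm, ?_⟩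
  have hli2 : LinearIndependent K (fun b : Fin d => fun c => w c (a (e.symm b))) :=
    hli.comp e.symm e.symm.injective
  have h1 : IsUnit (Matrix.of fun c b => w c (a (e.symm b))) := by
    rw [← Matrix.linearIndependent_cols_iff_isUnit]
    exact hli2
  exact ((Matrix.isUnit_iff_isUnit_det _).1 h1).ne_zero

end Cols

/-- **Module PLU** -/
theorem st_PLU : ST_PLU := by
  intro G _ H hH K _ _ ρ n β hβ W hW hstab
  obtain ⟨d, w, hwW, hwli, hwspan⟩ : ∃ (d : ℕ) (w : Fin d → Fin n → K), (∀ a, w a ∈ W) ∧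
      LinearIndependent K w ∧ ∀ x ∈ W, ∃ c : Fin d → K, x = ∑ a, c a • w a := by
    have B := Module.finBasis K W
    refine ⟨Module.finrank K W, fun a => (B a : Fin n → K), fun a => (B a).2, ?_, ?_⟩
    · exact B.linearIndependent.map' W.subtype (Submodule.ker_subtype W)
    · intro x hx
      refine ⟨fun a => B.repr ⟨x, hx⟩ a, ?_⟩
      have h1 := congrArg Subtype.val (B.sum_repr ⟨x, hx⟩)
      simp only [Submodule.coe_sum, Submodule.coe_smul] at h1
      exact h1.symm
  -- the matrix of the semilinear map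
  have hC0 : ∀ (g : G) (a : Fin d), ∃ c : Fin d → K,
      (fun i => ∑ j, (β g : Matrix (Fin n) (Fin n) ℂ) i j • ρ g (w a j)) = ∑ c', c c' • w c' :=
    fun g a => hwspan _ (hstab g _ (hwW a))
  choose C hC using hC0
  have hinvmul : ∀ (g : G) (l j : Fin n), ∑ k, ((β g⁻¹ : GL (Fin n) ℂ) : Matrix (Fin n) (Fin n) ℂ) l k *
      (β g : Matrix (Fin n) (Fin n) ℂ) k j = if l = j then 1 else 0 := by
    intro g l j
    have h1 : ((β g⁻¹ : GL (Fin n) ℂ) : Matrix (Fin n) (Fin n) ℂ) *
        (β g : Matrix (Fin n) (Fin n) ℂ) = 1 := by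
      rw [← Units.val_mul, ← map_mul, inv_mul_cancel, map_one, Units.val_one]
    have h2 := congrFun (congrFun h1 l) j
    rw [Matrix.mul_apply, Matrix.one_apply] at h2
    exact h2
  have key1 : ∀ (g : G) (a : Fin d) (l : Fin n), ρ g (w a l) =
      ∑ k, algebraMap ℂ K (((β g⁻¹ : GL (Fin n) ℂ) : Matrix (Fin n) (Fin n) ℂ) l k) *
        ∑ c, C g a c * w c k := by
    intro g a l
    have h1 : ∀ k, ∑ j, algebraMap ℂ K ((β g : Matrix (Fin n) (Fin n) ℂ) k j) * ρ g (w a j) =
        ∑ c, C g a c * w c k := by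
      intro k
      have h2 := congrFun (hC g a) k
      simp only [Algebra.smul_def, Finset.sum_apply] at h2
      exact h2
    simp_rw [← h1, Finset.mul_sum]
    rw [Finset.sum_comm]
    have h3 : ∀ j, ∑ k, algebraMap ℂ K (((β g⁻¹ : GL (Fin n) ℂ) : Matrix (Fin n) (Fin n) ℂ) l k) *
        (algebraMap ℂ K ((β g : Matrix (Fin n) (Fin n) ℂ) k j) * ρ g (w a j)) =
        if l = j then ρ g (w a j) else 0 := by
      intro j
      have h4 := congrArg (algebraMap ℂ K) (hinvmul g l j)
      rw [map_sum] at h4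
      simp only [map_mul] at h4
      simp_rw [← mul_assoc]
      rw [← Finset.sum_mul, h4]
      split_ifs <;> simp
    rw [Finset.sum_congr rfl fun j _ => h3 j]
    simp
  set D : (Fin d → Fin n) → K := fun I => (Matrix.of fun a b => w a (I b)).det with hD
  have key2 : ∀ (g : G) (I : Fin d → Fin n), ρ g (D I) = (Matrix.of (C g)).det *
      ∑ J : Fin d → Fin n, algebraMap ℂ K (∏ b,
        ((β g⁻¹ : GL (Fin n) ℂ) : Matrix (Fin n) (Fin n) ℂ) (I b) (J b)) * D J := by
    intro g I
    have h1 : ρ g (D I) = (Matrix.of fun a b => ρ g (w a (I b))).det := by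
      have := AlgEquiv.map_det (ρ g) (Matrix.of fun a b => w a (I b))
      rw [hD]
      simp only
      rw [this]
      rfl
    have h2 : (Matrix.of fun a b => ρ g (w a (I b))) = Matrix.of (C g) * Matrix.of fun c b =>
        ∑ k, algebraMap ℂ K (((β g⁻¹ : GL (Fin n) ℂ) : Matrix (Fin n) (Fin n) ℂ) (I b) k) *
          w c k := by
      ext a b
      simp only [Matrix.of_apply, Matrix.mul_apply]
      rw [key1]
      simp_rw [Finset.mul_sum]
      rw [Finset.sum_comm]
      exact Finset.sum_congr rfl fun c _ => Finset.sum_congr rfl fun k _ => by ring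
    rw [h1, h2, Matrix.det_mul]
    congr 1
    rw [← Matrix.det_transpose]
    have h3 : (Matrix.of fun c b =>
        ∑ k, algebraMap ℂ K (((β g⁻¹ : GL (Fin n) ℂ) : Matrix (Fin n) (Fin n) ℂ) (I b) k) *
          w c k)ᵀ = fun b => ∑ k, algebraMap ℂ K
            (((β g⁻¹ : GL (Fin n) ℂ) : Matrix (Fin n) (Fin n) ℂ) (I b) k) • fun c => w c k := by
      funext b
      funext c
      simp only [Matrix.transpose_apply, Matrix.of_apply, Finset.sum_apply, Pi.smul_apply,
        smul_eq_mul]
    rw [h3]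
    have h4 := (Matrix.detRowAlternating (n := Fin d) (R := K)).toMultilinearMap.map_sum
      (fun (b : Fin d) (k : Fin n) => algebraMap ℂ K
            (((β g⁻¹ : GL (Fin n) ℂ) : Matrix (Fin n) (Fin n) ℂ) (I b) k) • fun c => w c k)
    refine Eq.trans h4 ?_
    refine Finset.sum_congr rfl fun J _ => ?_
    have h5 := (Matrix.detRowAlternating (n := Fin d) (R := K)).toMultilinearMap.map_smul_univ
      (fun b : Fin d => algebraMap ℂ K
            (((β g⁻¹ : GL (Fin n) ℂ) : Matrix (Fin n) (Fin n) ℂ) (I b) (J b)))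
      (fun (b : Fin d) (c : Fin d) => w c (J b))
    refine Eq.trans h5 ?_
    rw [map_prod, smul_eq_mul]
    congr 1
    rw [hD]
    simp only
    rw [← Matrix.det_transpose]
    rfl
  have hdet : ∀ g, (Matrix.of (C g)).det ≠ 0 := by
    intro g h0
    obtain ⟨x, hx, hx0⟩ := Matrix.exists_vecMul_eq_zero_iff.2 h0
    apply hx
    have h1 : ∀ c, ∑ a, x a * C g a c = 0 := fun c => congrFun hx0 c
    have h2 : ∀ l, ∑ a, x a * ρ g (w a l) = 0 := by
      intro l
      simp_rw [key1 g _ l, Finset.mul_sum]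
      rw [Finset.sum_comm]
      refine Finset.sum_eq_zero fun k _ => ?_
      rw [Finset.sum_comm]
      refine Finset.sum_eq_zero fun c _ => ?_
      have h3 : ∑ a, x a * (algebraMap ℂ K (((β g⁻¹ : GL (Fin n) ℂ) :
          Matrix (Fin n) (Fin n) ℂ) l k) * (C g a c * w c k)) =
          algebraMap ℂ K (((β g⁻¹ : GL (Fin n) ℂ) : Matrix (Fin n) (Fin n) ℂ) l k) * w c k *
            ∑ a, x a * C g a c := by
        rw [Finset.mul_sum]
        exact Finset.sum_congr rfl fun a _ => by ring
      rw [h3, h1 c, mul_zero]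
    have h3 : ∑ a, (ρ g).symm (x a) • w a = 0 := by
      funext l
      have h4 := congrArg (ρ g).symm (h2 l)
      simp only [map_sum, map_mul, AlgEquiv.symm_apply_apply, map_zero] at h4
      simpa using h4
    have h4 := Fintype.linearIndependent_iff.1 hwli _ h3
    funext a
    have h5 := h4 a
    simpa using h5
  obtain ⟨I₀, hI₀⟩ := PLU_minor w hwli
  have hI₀' : D I₀ ≠ 0 := hI₀
  refine ⟨(Fin d → Fin n) → ℂ, inferInstance, inferInstance, inferInstance, PLU_rep d β,
    Fintype.linearCombination ℂ D, fun g => ((Matrix.of (C g)).det)⁻¹, PLU_isRat hH d β hβ,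
    fun g => inv_ne_zero (hdet g), ?_, ?_, ?_⟩
  · intro g f
    rw [Fintype.linearCombination_apply, Fintype.linearCombination_apply]
    have h1 : ∀ J, (PLU_rep d β g f) J = ∑ I, (∏ b,
        ((β g⁻¹ : GL (Fin n) ℂ) : Matrix (Fin n) (Fin n) ℂ) (I b) (J b)) * f I := fun J => rfl
    simp_rw [h1, Finset.sum_smul]
    rw [Finset.sum_comm, map_sum, Finset.mul_sum]
    refine Finset.sum_congr rfl fun I _ => ?_
    have h2 : ρ g (f I • D I) = f I • ρ g (D I) := map_smul (ρ g) (f I) (D I)
    rw [h2, key2 g I, Algebra.smul_def]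
    have h3 : ((Matrix.of (C g)).det)⁻¹ * (algebraMap ℂ K (f I) * ((Matrix.of (C g)).det *
        ∑ J : Fin d → Fin n, algebraMap ℂ K (∏ b,
        ((β g⁻¹ : GL (Fin n) ℂ) : Matrix (Fin n) (Fin n) ℂ) (I b) (J b)) * D J)) =
        algebraMap ℂ K (f I) * ∑ J : Fin d → Fin n, algebraMap ℂ K (∏ b,
        ((β g⁻¹ : GL (Fin n) ℂ) : Matrix (Fin n) (Fin n) ℂ) (I b) (J b)) * D J := by
      have := hdet g
      field_simp
    rw [h3, Finset.mul_sum]
    refine Finset.sum_congr rfl fun J _ => ?_
    rw [Algebra.smul_def, map_mul]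
    ring
  · refine ⟨Pi.single I₀ 1, ?_⟩
    rw [Fintype.linearCombination_apply]
    have h1 : ∑ I, (Pi.single I₀ (1 : ℂ) : (Fin d → Fin n) → ℂ) I • D I = D I₀ := by
      rw [Finset.sum_eq_single I₀]
      · simp
      · intro I _ hI
        simp [Pi.single_eq_of_ne hI]
      · intro h; exact absurd (Finset.mem_univ _) h
    rw [h1]
    exact hI₀'
  · -- the vector with coordinates in the field of ratios
    have hjs : ∀ I, Fintype.linearCombination ℂ D (Pi.single I (1 : ℂ)) = D I := by
      intro I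
      rw [Fintype.linearCombination_apply, Finset.sum_eq_single I]
      · simp
      · intro J _ hJ
        simp [Pi.single_eq_of_ne hJ]
      · intro h; exact absurd (Finset.mem_univ _) h
    have hd0 : 0 < d := by
      rcases Nat.eq_zero_or_pos d with h0 | h0
      · exfalso
        apply hW
        rw [eq_bot_iff]
        intro x hx
        obtain ⟨c, hc⟩ := hwspan x hx
        subst h0
        simpa using hc
      · exact h0
    set b₀ : Fin d := ⟨0, hd0⟩
    set A : Matrix (Fin d) (Fin d) K := Matrix.of fun a b => w a (I₀ b) with hA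
    have hAu : IsUnit A.det := (show A.det ≠ 0 from hI₀).isUnit
    set u : Fin n → K := ∑ a, (A⁻¹ b₀ a) • w a with hu
    have hul : ∀ l, u l = D (Function.update I₀ b₀ l) / D I₀ := by
      intro l
      have h1 : u l = (A⁻¹ *ᵥ fun a => w a l) b₀ := by
        rw [hu]
        simp [Matrix.mulVec, dotProduct]
      have h2 : (A⁻¹ *ᵥ fun a => w a l) b₀ = A.det⁻¹ * A.cramer (fun a => w a l) b₀ := by
        rw [Matrix.inv_def, Matrix.cramer_eq_adjugate_mulVec, Matrix.smul_mulVec, Ring.inverse_eq_inv]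
        rfl
      rw [h1, h2, Matrix.cramer_apply, div_eq_inv_mul]
      congr 1
      rw [hD]
      simp only
      congr 1
      ext a b
      rw [Matrix.updateCol_apply]
      by_cases hb : b = b₀
      · subst hb; simp
      · simp [hb, hA]
    refine ⟨u, ?_, ?_, ?_⟩
    · rw [hu]
      exact W.sum_mem fun a _ => W.smul_mem _ (hwW a)
    · intro h0
      have h1 := hul (I₀ b₀)
      rw [h0, Function.update_eq_self, div_self hI₀'] at h1
      exact zero_ne_one h1
    · intro i
      rw [hul i]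
      apply IntermediateField.subset_adjoin
      exact ⟨Pi.single (Function.update I₀ b₀ i) 1, Pi.single I₀ 1, by rw [hjs, hjs]⟩

end Pool.Agent.Helper43.FV
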